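import Pool.Agent.Helper21.MP.Star2

/-!
# V4: circuits that are correct on all instances
-/

set_option autoImplicit false

open Finset

namespace Pool.Agent.Helper36.MPV

open Pool.Agent.Helper22.ETModel Pool.Agent.Helper8.VT Pool.Agent.Helper8.UV
open Pool.Agent.Helper53.TC5 Pool.Agent.Helper21.MP2

/-- A nonzero relation. -/
theorem exists_rel {n : ℕ} (U : Finset (Fin n)) (β : Type) [Fintype β] (Φ : β → Fin n → ℝ)
    (h : Fintype.card β + 2 ≤ U.card) :
    ∃ lam : Fin n → ℝ, (∃ k ∈ U, lam k ≠ 0) ∧ ∑ k ∈ U, lam k = 0 ∧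
      ∀ b, ∑ k ∈ U, lam k * Φ b k = 0 := by
  classical
  let f : (U → ℝ) →ₗ[ℝ] (Option β → ℝ) :=
    { toFun := fun x o => match o with
        | none => ∑ k : U, x k
        | some b => ∑ k : U, x k * Φ b k
      map_add' := by
        intro x y
        funext o
        rcases o with _ | b
        · simp [Finset.sum_add_distrib]
        · simp [add_mul, Finset.sum_add_distrib]
      map_smul' := by
        intro c x
        funext o
        rcases o with _ | b
        · simp [Finset.mul_sum]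
        · simp [Finset.mul_sum, mul_assoc] }
  have hlt : Module.finrank ℝ (Option β → ℝ) < Module.finrank ℝ (U → ℝ) := by
    rw [Module.finrank_fintype_fun_eq_card, Module.finrank_fintype_fun_eq_card,
      Fintype.card_option, Fintype.card_coe]
    omega
  have hk := LinearMap.ker_ne_bot_of_finrank_lt (f := f) hlt
  obtain ⟨x, hx, hx0⟩ := (Submodule.ne_bot_iff _).1 hk
  rw [LinearMap.mem_ker] at hx
  refine ⟨fun k => if hk : k ∈ U then x ⟨k, hk⟩ else 0, ?_, ?_, fun b => ?_⟩
  · by_contra hc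
    push Not at hc
    apply hx0
    funext k
    have := hc k k.2
    rw [dif_pos k.2] at this
    exact this
  · have h0 := congrFun hx none
    change ∑ k : U, x k = 0 at h0
    rw [← Finset.sum_coe_sort]
    refine Eq.trans (Finset.sum_congr rfl fun k _ => ?_) h0
    rw [dif_pos k.2]
  · have h0 := congrFun hx (some b)
    change ∑ k : U, x k * Φ b k = 0 at h0
    rw [← Finset.sum_coe_sort]
    refine Eq.trans (Finset.sum_congr rfl fun k _ => ?_) h0
    beta_reduce
    rw [dif_pos k.2]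

/-- The set `P` of pairs. -/
noncomputable def setP {n : ℕ} (U : Finset (Fin n)) (lam : Fin n → ℝ) :
    Finset ((Fin n → Bool) × (Fin n → Bool)) := by
  classical
  exact univ.filter fun p => ∀ k ∈ U, (p.1 k = p.2 k ↔ 0 < lam k)

/-- The set `N` of pairs. -/
noncomputable def setN {n : ℕ} (U : Finset (Fin n)) (lam : Fin n → ℝ) :
    Finset ((Fin n → Bool) × (Fin n → Bool)) := by
  classical
  exact univ.filter fun p => ∀ k ∈ U, (p.1 k = p.2 k ↔ ¬ 0 < lam k)

theorem mem_setP {n : ℕ} (U : Finset (Fin n)) (lam : Fin n → ℝ)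
    (p : (Fin n → Bool) × (Fin n → Bool)) :
    p ∈ setP U lam ↔ ∀ k ∈ U, (p.1 k = p.2 k ↔ 0 < lam k) := by
  classical
  unfold setP
  simp

theorem mem_setN {n : ℕ} (U : Finset (Fin n)) (lam : Fin n → ℝ)
    (p : (Fin n → Bool) × (Fin n → Bool)) :
    p ∈ setN U lam ↔ ∀ k ∈ U, (p.1 k = p.2 k ↔ ¬ 0 < lam k) := by
  classical
  unfold setN
  simp

open Classical in
/-- The involution. -/
noncomputable def inv {n : ℕ} (U : Finset (Fin n)) (S : Fin n → Prop)
    (p : (Fin n → Bool) × (Fin n → Bool)) : (Fin n → Bool) × (Fin n → Bool) :=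
  (fun k => if k ∈ U ∧ ¬ S k then !p.1 k else p.1 k,
    fun k => if k ∈ U ∧ S k then !p.2 k else p.2 k)

theorem inv_inv {n : ℕ} (U : Finset (Fin n)) (S : Fin n → Prop)
    (p : (Fin n → Bool) × (Fin n → Bool)) : inv U S (inv U S p) = p := by
  classical
  unfold inv
  ext k
  · by_cases h : k ∈ U ∧ ¬ S k <;> simp [h]
  · by_cases h : k ∈ U ∧ S k <;> simp [h]

theorem inv_eq {n : ℕ} (U : Finset (Fin n)) (S : Fin n → Prop)
    (p : (Fin n → Bool) × (Fin n → Bool)) (k : Fin n) (hk : k ∈ U) :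
    ((inv U S p).1 k = (inv U S p).2 k) ↔ ¬ (p.1 k = p.2 k) := by
  classical
  unfold inv
  by_cases h : S k
  · simp only [hk, h, not_true_eq_false, and_false, if_false, and_self, if_true]
    cases p.1 k <;> cases p.2 k <;> simp
  · simp only [hk, h, not_false_eq_true, and_self, if_true, and_false, if_false]
    cases p.1 k <;> cases p.2 k <;> simp

/-- A voter of the second kind contributes zero. -/
theorem sum_second {n : ℕ} (U : Finset (Fin n)) (lam : Fin n → ℝ) (S T : Fin n → Prop)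
    (hST : ∀ k ∈ U, ¬ (S k ∧ T k)) (V : (Fin n → Bool) → (Fin n → Bool) → ℝ)
    (hV : ∀ σ σ' τ τ' : Fin n → Bool, (∀ k, S k → σ k = τ k) → (∀ k, T k → σ' k = τ' k) →
      V σ σ' = V τ τ') :
    ∑ p ∈ setP U lam, V p.1 p.2 = ∑ p ∈ setN U lam, V p.1 p.2 := by
  classical
  refine Finset.sum_bij' (fun p _ => inv U S p) (fun p _ => inv U S p) ?_ ?_ ?_ ?_ ?_
  · intro p hp
    rw [mem_setN]
    rw [mem_setP] at hp
    intro k hk
    rw [inv_eq U S p k hk, hp k hk]
  · intro p hp
    rw [mem_setP]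
    rw [mem_setN] at hp
    intro k hk
    rw [inv_eq U S p k hk, hp k hk, not_not]
  · intro p _
    exact inv_inv U S p
  · intro p _
    exact inv_inv U S p
  · intro p _
    refine hV _ _ _ _ (fun k hk => ?_) (fun k hk => ?_)
    · unfold inv
      simp [hk]
    · unfold inv
      by_cases h : k ∈ U ∧ S k
      · exact absurd ⟨h.2, hk⟩ (hST k h.1)
      · simp [h]

/-- The voter `H` at the pair `i`, `j`: `m` dimensions, the set `T` of cells. -/
def Good {n : ℕ} (H : Inst n → ℝ) (i j : Fin n) (m : ℕ) (T : Finset (Fin n)) : Prop :=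
  ∃ φ : Fin m → ℤ → ℝ,
    (∀ σ σ' : Fin n → Bool, ∃ (c : ℝ) (d : Fin m → ℝ), ∀ a : ℤ,
      |a| ≤ 100 * n → H (gi i j σ σ' a) = c + ∑ l, d l * φ l a) ∨
    ∃ S S' : Fin n → Prop, (∀ k : Fin n, (k : ℕ) % 3 = 2 → k ∉ T → ¬ (S k ∧ S' k)) ∧
      ∀ σ σ' τ τ' : Fin n → Bool, (∀ k, S k → σ k = τ k) → (∀ k, S' k → σ' k = τ' k) →
        ∀ a : ℤ, |a| ≤ 100 * n → H (gi i j σ σ' a) = H (gi i j τ τ' a)

/-- the point of `k` -/
def pt {n : ℕ} (k : Fin n) : ℤ := 4 * ((k : ℕ) + 1 : ℤ)

/-- One pair. -/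
theorem one_pair {n : ℕ} (hn : 3 ≤ n) {ι : Type} [Fintype ι] (H : ι → Inst n → ℝ)
    (hH : ∀ I : Inst n, I.Valid → Tripartite I → (0 < ∑ r, H r I ↔ I.Yes))
    (i j : Fin n) (hi : (i : ℕ) % 3 = 0) (hj : (j : ℕ) % 3 = 1)
    (m : ι → ℕ) (T : ι → Finset (Fin n)) (hG : ∀ r, Good (H r) i j (m r) (T r)) :
    (univ.filter fun k : Fin n => (k : ℕ) % 3 = 2).card ≤ 1 + ∑ r, (m r + (T r).card) := by
  classical
  by_contra hc
  push Not at hc
  rw [Finset.sum_add_distrib] at hc
  set C := univ.filter fun k : Fin n => (k : ℕ) % 3 = 2 with hC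
  set U := C \ (univ.biUnion T) with hU
  have hUc : (∑ r, m r) + 2 ≤ U.card := by
    have h1 : (univ.biUnion T).card ≤ ∑ r, (T r).card := Finset.card_biUnion_le
    have h2 : C.card - (univ.biUnion T).card ≤ U.card := Finset.le_card_sdiff _ _
    omega
  choose φ hφ using hG
  obtain ⟨lam, ⟨k0, hk0, hl0⟩, hs, hr⟩ := exists_rel U (Σ r : ι, Fin (m r))
    (fun b k => φ b.1 b.2 (pt k)) (by
      rw [Fintype.card_sigma]
      simpa using hUc)
  have hUk : ∀ k ∈ U, (k : ℕ) % 3 = 2 := fun k hk => by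
    have := (Finset.mem_sdiff.1 hk).1
    rw [hC, Finset.mem_filter] at this
    exact this.2
  have hUT : ∀ k ∈ U, ∀ r, k ∉ T r := fun k hk r hr => by
    exact (Finset.mem_sdiff.1 hk).2 (Finset.mem_biUnion.2 ⟨r, Finset.mem_univ _, hr⟩)
  -- the sign of the sum
  have hsign : ∀ (σ σ' : Fin n → Bool) (k : Fin n), k ∈ U →
      (0 < ∑ r, H r (gi i j σ σ' (pt k)) ↔ σ k = σ' k) := by
    intro σ σ' k hk
    unfold pt
    rw [hH _ (gi_valid hn i j σ σ' _ (pt_abs k)) (gi_tripartite i j σ σ' _)]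
    exact gi_yes hn i j hi hj σ σ' k (hUk k hk)
  -- each voter
  have hvoter : ∀ r, ∑ p ∈ setP U lam, ∑ k ∈ U, lam k * H r (gi i j p.1 p.2 (pt k)) =
      ∑ p ∈ setN U lam, ∑ k ∈ U, lam k * H r (gi i j p.1 p.2 (pt k)) := by
    intro r
    rcases hφ r with h | ⟨S, S', h1, h2⟩
    · have hz : ∀ p : (Fin n → Bool) × (Fin n → Bool),
          ∑ k ∈ U, lam k * H r (gi i j p.1 p.2 (pt k)) = 0 := by
        intro p
        obtain ⟨c, d, hcd⟩ := h p.1 p.2
        have e1 : ∀ k ∈ U, lam k * H r (gi i j p.1 p.2 (pt k)) =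
            c * lam k + ∑ l, d l * (lam k * φ r l (pt k)) := by
          intro k _
          rw [hcd (pt k) (pt_abs k), mul_add, Finset.mul_sum, mul_comm]
          congr 1
          refine Finset.sum_congr rfl fun l _ => ?_
          ring
        rw [Finset.sum_congr rfl e1, Finset.sum_add_distrib, ← Finset.mul_sum, hs, mul_zero,
          zero_add, Finset.sum_comm]
        refine Finset.sum_eq_zero fun l _ => ?_
        rw [← Finset.mul_sum, hr ⟨r, l⟩, mul_zero]
      rw [Finset.sum_eq_zero fun p _ => hz p, Finset.sum_eq_zero fun p _ => hz p]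
    · refine sum_second U lam S S' (fun k hk => h1 k (hUk k hk) (hUT k hk r))
        (fun σ σ' => ∑ k ∈ U, lam k * H r (gi i j σ σ' (pt k))) ?_
      intro σ σ' τ τ' e1 e2
      refine Finset.sum_congr rfl fun k _ => ?_
      rw [h2 σ σ' τ τ' e1 e2 (pt k) (pt_abs k)]
  have htot : ∑ p ∈ setP U lam, ∑ k ∈ U, lam k * ∑ r, H r (gi i j p.1 p.2 (pt k)) =
      ∑ p ∈ setN U lam, ∑ k ∈ U, lam k * ∑ r, H r (gi i j p.1 p.2 (pt k)) := by
    have e : ∀ A : Finset ((Fin n → Bool) × (Fin n → Bool)),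
        ∑ p ∈ A, ∑ k ∈ U, lam k * ∑ r, H r (gi i j p.1 p.2 (pt k)) =
          ∑ r, ∑ p ∈ A, ∑ k ∈ U, lam k * H r (gi i j p.1 p.2 (pt k)) := by
      intro A
      symm
      rw [Finset.sum_comm]
      refine Finset.sum_congr rfl fun p _ => ?_
      rw [Finset.sum_comm]
      refine Finset.sum_congr rfl fun k _ => ?_
      rw [Finset.mul_sum]
    rw [e, e]
    exact Finset.sum_congr rfl fun r _ => hvoter r
  -- a positive coefficient
  have hpos : ∃ k ∈ U, 0 < lam k := by
    by_contra hcn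
    push Not at hcn
    have h0 : ∀ k ∈ U, lam k = 0 := by
      have := (Finset.sum_eq_zero_iff_of_nonpos hcn).1 hs
      exact this
    exact hl0 (h0 k0 hk0)
  obtain ⟨k1, hk1, hl1⟩ := hpos
  have hN : ∑ p ∈ setN U lam, ∑ k ∈ U, lam k * ∑ r, H r (gi i j p.1 p.2 (pt k)) ≤ 0 := by
    refine Finset.sum_nonpos fun p hp => Finset.sum_nonpos fun k hk => ?_
    rw [mem_setN] at hp
    have h1 := hp k hk
    have h2 := hsign p.1 p.2 k hk
    by_cases hl : 0 < lam k
    · have h3 : ¬ 0 < ∑ r, H r (gi i j p.1 p.2 (pt k)) := by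
        rw [h2, h1, not_not]
        exact hl
      exact mul_nonpos_of_nonneg_of_nonpos hl.le (not_lt.1 h3)
    · have h3 : 0 < ∑ r, H r (gi i j p.1 p.2 (pt k)) := by
        rw [h2, h1]
        exact hl
      exact mul_nonpos_of_nonpos_of_nonneg (not_lt.1 hl) h3.le
  have hPt : ∀ p ∈ setP U lam, ∀ k ∈ U, 0 ≤ lam k * ∑ r, H r (gi i j p.1 p.2 (pt k)) := by
    intro p hp k hk
    rw [mem_setP] at hp
    have h1 := hp k hk
    have h2 := hsign p.1 p.2 k hk
    by_cases hl : 0 < lam k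
    · have h3 : 0 < ∑ r, H r (gi i j p.1 p.2 (pt k)) := by
        rw [h2, h1]
        exact hl
      exact mul_nonneg hl.le h3.le
    · have h3 : ¬ 0 < ∑ r, H r (gi i j p.1 p.2 (pt k)) := by
        rw [h2, h1]
        exact hl
      exact mul_nonneg_of_nonpos_of_nonpos (not_lt.1 hl) (not_lt.1 h3)
  have hP : 0 < ∑ p ∈ setP U lam, ∑ k ∈ U, lam k * ∑ r, H r (gi i j p.1 p.2 (pt k)) := by
    let p0 : (Fin n → Bool) × (Fin n → Bool) :=
      (fun k => decide (0 < lam k), fun _ => true)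
    have hp0 : p0 ∈ setP U lam := by
      rw [mem_setP]
      intro k _
      simp [p0]
    refine Finset.sum_pos' (fun p hp => Finset.sum_nonneg (hPt p hp)) ⟨p0, hp0, ?_⟩
    refine Finset.sum_pos' (hPt p0 hp0) ⟨k1, hk1, ?_⟩
    have h2 := hsign p0.1 p0.2 k1 hk1
    have h1 := (mem_setP U lam p0).1 hp0 k1 hk1
    exact mul_pos hl1 (h2.2 (h1.2 hl1))
  linarith

/-- The cells of the class `2`. -/
noncomputable def cells {n : ℕ} (Q : Finset (Fin n × Fin n)) (i j : Fin n) : Finset (Fin n) := by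
  classical
  exact univ.filter fun k => (k : ℕ) % 3 = 2 ∧ Has Q i j ∧ Has Q j k ∧ Has Q i k

theorem mem_cells {n : ℕ} (Q : Finset (Fin n × Fin n)) (i j k : Fin n) :
    k ∈ cells Q i j ↔ (k : ℕ) % 3 = 2 ∧ Has Q i j ∧ Has Q j k ∧ Has Q i k := by
  classical
  unfold cells
  simp

theorem sum_cells {n : ℕ} (Q : Finset (Fin n × Fin n)) :
    (∑ i : Fin n, ∑ j : Fin n, if (i : ℕ) % 3 = 0 ∧ (j : ℕ) % 3 = 1 then
      0 + (cells Q i j).card else 0) = triangles Q := by
  classical
  unfold triangles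
  rw [Finset.card_filter, Fintype.sum_prod_type]
  refine Finset.sum_congr rfl fun i _ => ?_
  rw [Fintype.sum_prod_type]
  refine Finset.sum_congr rfl fun j _ => ?_
  split_ifs with h
  · unfold cells
    rw [zero_add, Finset.card_filter]
    refine Finset.sum_congr rfl fun k _ => ?_
    have : ((k : ℕ) % 3 = 2 ∧ Has Q i j ∧ Has Q j k ∧ Has Q i k) ↔
        (((i : ℕ) % 3 = 0 ∧ (j : ℕ) % 3 = 1 ∧ (k : ℕ) % 3 = 2) ∧ Has Q i j ∧ Has Q j k ∧
          Has Q i k) := by tauto
    by_cases h2 : (k : ℕ) % 3 = 2 ∧ Has Q i j ∧ Has Q j k ∧ Has Q i k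
    · rw [if_pos h2, if_pos (this.1 h2)]
    · rw [if_neg h2, if_neg (fun h3 => h2 (this.2 h3))]
  · symm
    refine Finset.sum_eq_zero fun k _ => ?_
    rw [if_neg]
    intro h2
    exact h ⟨h2.1.1, h2.1.2.1⟩

/-- The data of a voter. -/
theorem data {n : ℕ} (hn : 3 ≤ n) (H : Inst n → ℝ) (κ : ℕ) (h : PriceD H κ) :
    ∃ (m : Fin n → Fin n → ℕ) (T : Fin n → Fin n → Finset (Fin n)),
      (∀ i j : Fin n, (i : ℕ) % 3 = 0 → (j : ℕ) % 3 = 1 → Good H i j (m i j) (T i j)) ∧
      (∑ i : Fin n, ∑ j : Fin n, if (i : ℕ) % 3 = 0 ∧ (j : ℕ) % 3 = 1 then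
        m i j + (T i j).card else 0) ≤ κ := by
  classical
  rcases h with ⟨rfl, hF⟩ | ⟨K, hK, rfl⟩ | hL
  · refine ⟨fun _ _ => 0, fun _ _ => ∅, fun i j hi hj => ?_, by simp⟩
    obtain ⟨p, q, hpq, hq, hH⟩ := ign_of_free H hF
    have hcases : (p = 0 ∧ q = 1) ∨ (p = 1 ∧ q = 2) ∨ (p = 0 ∧ q = 2) := by omega
    refine ⟨fun _ _ => 0, ?_⟩
    rcases hcases with ⟨rfl, rfl⟩ | ⟨rfl, rfl⟩ | ⟨rfl, rfl⟩
    · left
      intro σ σ'
      refine ⟨H (gi i j σ σ' 0), fun _ => 0, fun a ha => ?_⟩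
      rw [Fintype.sum_empty, add_zero]
      refine hH _ _ (gi_valid hn i j σ σ' a ha) (gi_valid hn i j σ σ' 0 (by simp)) rfl ?_
      intro u v huv
      refine ws_congr (fun h => ?_) (fun _ _ => rfl) (fun _ _ => rfl) (fun _ _ => rfl)
        (fun _ _ => rfl)
      exfalso
      apply huv
      unfold Side
      rcases h with ⟨rfl, rfl⟩ | ⟨rfl, rfl⟩
      · exact Or.inl ⟨hi, hj⟩
      · exact Or.inr ⟨hj, hi⟩
    · right
      refine ⟨fun _ => False, fun _ => True, fun _ _ _ h => h.1, ?_⟩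
      intro σ σ' τ τ' _ e2 a ha
      refine hH _ _ (gi_valid hn i j σ σ' a ha) (gi_valid hn i j τ τ' a ha) rfl ?_
      intro u v huv
      refine ws_congr (fun _ => rfl) (fun h1 h2 => ?_) (fun h1 h2 => ?_)
        (fun _ _ => e2 _ trivial) (fun _ _ => e2 _ trivial)
      · exfalso
        apply huv
        subst h2
        exact Or.inr ⟨h1, hj⟩
      · exfalso
        apply huv
        subst h2
        exact Or.inl ⟨hj, h1⟩
    · right
      refine ⟨fun _ => True, fun _ => False, fun _ _ _ h => h.2, ?_⟩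
      intro σ σ' τ τ' e1 _ a ha
      refine hH _ _ (gi_valid hn i j σ σ' a ha) (gi_valid hn i j τ τ' a ha) rfl ?_
      intro u v huv
      refine ws_congr (fun _ => rfl) (fun _ _ => e1 _ trivial) (fun _ _ => e1 _ trivial)
        (fun h1 h2 => ?_) (fun h1 h2 => ?_)
      · exfalso
        apply huv
        subst h2
        exact Or.inr ⟨h1, hi⟩
      · exfalso
        apply huv
        subst h2
        exact Or.inl ⟨hi, h1⟩
  · refine ⟨K, fun _ _ => ∅, fun i j hi hj => ?_, ?_⟩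
    · obtain ⟨φ, hφ⟩ := gi_low hn hK i j hi hj
      exact ⟨φ, Or.inl hφ⟩
    · unfold total
      simp
  · obtain ⟨Q, hQ, hw⟩ := hL (fl n)
    refine ⟨fun _ _ => 0, cells Q, fun i j hi hj => ⟨fun _ _ => 0, ?_⟩, ?_⟩
    · by_cases hij : Has Q i j
      · right
        refine ⟨fun k => Has Q j k, fun k => Has Q i k, fun k hk hkT h => ?_, ?_⟩
        · exact hkT ((mem_cells Q i j k).2 ⟨hk, hij, h.1, h.2⟩)
        · intro σ σ' τ τ' e1 e2 a ha
          refine hw _ _ (gi_valid hn i j σ σ' a ha) (gi_valid hn i j τ τ' a ha) ?_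
          intro u v huv
          refine ws_congr (fun _ => rfl) (fun h1 h2 => ?_) (fun h1 h2 => ?_)
            (fun h1 h2 => ?_) (fun h1 h2 => ?_)
          · subst h2
            exact e1 u huv.symm
          · subst h2
            exact e1 v huv
          · subst h2
            exact e2 u huv.symm
          · subst h2
            exact e2 v huv
      · left
        intro σ σ'
        refine ⟨H (gi i j σ σ' 0), fun _ => 0, fun a ha => ?_⟩
        rw [Fintype.sum_empty, add_zero]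
        refine hw _ _ (gi_valid hn i j σ σ' a ha) (gi_valid hn i j σ σ' 0 (by simp)) ?_
        intro u v huv
        refine ws_congr (fun h => ?_) (fun _ _ => rfl) (fun _ _ => rfl) (fun _ _ => rfl)
          (fun _ _ => rfl)
        exfalso
        apply hij
        rcases h with ⟨rfl, rfl⟩ | ⟨rfl, rfl⟩
        · exact huv
        · exact huv.symm
    · rw [sum_cells]
      exact hQ

/-- The classes. -/
theorem card_class (n r : ℕ) (hr : r < 3) :
    (univ.filter fun k : Fin n => (k : ℕ) % 3 = r).card = (n + (2 - r)) / 3 := by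
  induction n with
  | zero =>
    have : (0 + (2 - r)) / 3 = 0 := by omega
    rw [this]
    simp
  | succ n ih =>
    have e : (univ.filter fun k : Fin (n + 1) => (k : ℕ) % 3 = r).card =
        (univ.filter fun k : Fin n => (k : ℕ) % 3 = r).card + if n % 3 = r then 1 else 0 := by
      rw [Finset.card_filter, Finset.card_filter, Fin.sum_univ_castSucc]
      simp
    rw [e, ih]
    split_ifs with h <;> omega

theorem lower_det (n : ℕ) (ι : Type) [Fintype ι] (H : ι → Inst n → ℝ) (κ : ι → ℕ)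
    (hκ : ∀ r, PriceD (H r) (κ r))
    (hH : ∀ I : Inst n, I.Valid → Tripartite I → (0 < ∑ r, H r I ↔ I.Yes)) :
    (n + 2) / 3 * ((n + 1) / 3) * (n / 3 - 1) ≤ ∑ r, κ r := by
  classical
  rcases Nat.lt_or_ge n 3 with hn | hn
  · have : n / 3 - 1 = 0 := by omega
    rw [this, mul_zero]
    exact Nat.zero_le _
  choose m T hG hs using fun r => data hn (H r) (κ r) (hκ r)
  have h1 : ∀ i j : Fin n, (i : ℕ) % 3 = 0 → (j : ℕ) % 3 = 1 →
      n / 3 - 1 ≤ ∑ r, (m r i j + (T r i j).card) := by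
    intro i j hi hj
    have h := one_pair hn H hH i j hi hj (fun r => m r i j) (fun r => T r i j)
      (fun r => hG r i j hi hj)
    rw [card_class n 2 (by norm_num)] at h
    have : (n + (2 - 2)) / 3 = n / 3 := by norm_num
    rw [this] at h
    omega
  calc (n + 2) / 3 * ((n + 1) / 3) * (n / 3 - 1)
      = ∑ i : Fin n, ∑ j : Fin n, if (i : ℕ) % 3 = 0 ∧ (j : ℕ) % 3 = 1 then n / 3 - 1 else 0 := by
        have e0 := card_class n 0 (by norm_num)
        have e1 := card_class n 1 (by norm_num)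
        have e0' : (n + (2 - 0)) / 3 = (n + 2) / 3 := by norm_num
        have e1' : (n + (2 - 1)) / 3 = (n + 1) / 3 := by norm_num
        rw [e0'] at e0
        rw [e1'] at e1
        have e2 : ∀ i : Fin n, (∑ j : Fin n, if (i : ℕ) % 3 = 0 ∧ (j : ℕ) % 3 = 1 then
            n / 3 - 1 else 0) = if (i : ℕ) % 3 = 0 then (n + 1) / 3 * (n / 3 - 1) else 0 := by
          intro i
          by_cases h : (i : ℕ) % 3 = 0
          · simp only [h, true_and, if_true]
            rw [← Finset.sum_filter, Finset.sum_const, e1, smul_eq_mul]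
          · simp [h]
        rw [Finset.sum_congr rfl fun i _ => e2 i, ← Finset.sum_filter, Finset.sum_const, e0,
          smul_eq_mul, mul_assoc]
    _ ≤ ∑ i : Fin n, ∑ j : Fin n, if (i : ℕ) % 3 = 0 ∧ (j : ℕ) % 3 = 1 then
          ∑ r, (m r i j + (T r i j).card) else 0 := by
        refine Finset.sum_le_sum fun i _ => Finset.sum_le_sum fun j _ => ?_
        split_ifs with h
        · exact h1 i j h.1 h.2
        · exact le_rfl
    _ = ∑ r, ∑ i : Fin n, ∑ j : Fin n, (if (i : ℕ) % 3 = 0 ∧ (j : ℕ) % 3 = 1 then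
          m r i j + (T r i j).card else 0) := by
        rw [Finset.sum_comm (s := (univ : Finset ι))]
        refine Finset.sum_congr rfl fun i _ => ?_
        rw [Finset.sum_comm (s := (univ : Finset ι))]
        refine Finset.sum_congr rfl fun j _ => ?_
        split_ifs with h
        · rfl
        · simp
    _ ≤ ∑ r, κ r := Finset.sum_le_sum fun r _ => hs r

end Pool.Agent.Helper36.MPV
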